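import Pool.Agent.MWG.Stmts
import Pool.Agent.MWS.StmtsA

set_option autoImplicit false

namespace Pool.Agent.MWG.H23

open Pool.Agent.Helper14_MV Pool.Agent.Helper2_MV Pool.Agent.MVO Pool.Agent.MWL Pool.Agent.MWS
  Pool.Agent.MWG

theorem m1d (hTLM : Pool.Agent.MWS.TlmStmt) (hBSM : BsmStmt) (hSWM : SwmStmt) (hEDM : EdmStmt) :
    M1dStmt := by
  intro β h
  exact hTLM β (hBSM β h) h.itr (hSWM β h) (hEDM β h)

end Pool.Agent.MWG.H23
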